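import Mathlib

namespace Pool.Agent.TH315.Mu

variable {Γ : Type*} [Group Γ] {p : ℕ}

/-- A function on `Γ` which is supported on `H` and additive on `H`. -/
def IsCh (H : Subgroup Γ) (χ : Γ → ZMod p) : Prop :=
  (∀ x, x ∉ H → χ x = 0) ∧ ∀ x ∈ H, ∀ y ∈ H, χ (x * y) = χ x + χ y

theorem IsCh.one {H : Subgroup Γ} {χ : Γ → ZMod p} (h : IsCh H χ) : χ 1 = 0 := by
  have := h.2 1 H.one_mem 1 H.one_mem
  simpa using this

theorem IsCh.inv {H : Subgroup Γ} {χ : Γ → ZMod p} (h : IsCh H χ) {x : Γ} (hx : x ∈ H) :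
    χ x⁻¹ = - χ x := by
  have := h.2 x hx x⁻¹ (H.inv_mem hx)
  rw [mul_inv_cancel, h.one] at this
  exact (neg_eq_of_add_eq_zero_right this.symm).symm

theorem fin_of_ker {A B : Type*} [AddCommGroup A] [AddCommGroup B] (M : AddSubgroup A)
    (f : A →+ B) (h1 : (f '' (M : Set A)).Finite) (h2 : {x | x ∈ M ∧ f x = 0}.Finite) :
    (M : Set A).Finite := by
  refine Set.Finite.of_finite_fibers f h1 ?_
  rintro _ ⟨x0, hx0, rfl⟩
  refine (h2.image (fun y => x0 + y)).subset ?_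
  rintro x ⟨hx, hfx⟩
  refine ⟨x - x0, ⟨M.sub_mem hx hx0, ?_⟩, by simp⟩
  simp only [Set.mem_preimage, Set.mem_singleton_iff] at hfx
  rw [map_sub, hfx, sub_self]

/-- Descending step. -/
theorem desc (U V : Subgroup Γ) (hfin : Finite (U ⧸ V.subgroupOf U)) [NeZero p]
    (A B : Set (Γ → ZMod p)) (hA : ∀ χ ∈ A, IsCh U χ) (hB : B.Finite)
    (hAB : ∀ χ ∈ A, ∃ ψ ∈ B, ∀ v ∈ V, ψ v = χ v) (hVU : V ≤ U) : A.Finite := by
  classical
  choose! r hr1 hr2 using hAB
  have hfin2 : (Set.univ : Set ((U ⧸ V.subgroupOf U) → ZMod p)).Finite := Set.finite_univ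
  refine Set.Finite.of_injOn (f := fun χ : Γ → ZMod p => (r χ, fun q : U ⧸ V.subgroupOf U => χ (q.out : U)))
    (t := B ×ˢ Set.univ) ?_ ?_ (hB.prod hfin2)
  · intro χ hχ
    exact ⟨hr1 χ hχ, trivial⟩
  · intro χ hχ χ' hχ' h
    simp only [Prod.mk.injEq] at h
    funext x
    by_cases hx : x ∈ U
    · set q : U ⧸ V.subgroupOf U := QuotientGroup.mk ⟨x, hx⟩ with hq
      have h1 : (q.out)⁻¹ * (⟨x, hx⟩ : U) ∈ V.subgroupOf U := by
        rw [← QuotientGroup.eq, QuotientGroup.out_eq']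
      rw [Subgroup.mem_subgroupOf] at h1
      have h2 : x = (q.out : U) * (((q.out)⁻¹ * (⟨x, hx⟩ : U) : U) : Γ) := by
        simp
      have h3 := congrFun h.2 q
      rw [h2, (hA χ hχ).2 _ (q.out).2 _ (hVU h1), (hA χ' hχ').2 _ (q.out).2 _ (hVU h1), h3]
      congr 1
      rw [← hr2 χ hχ _ h1, ← hr2 χ' hχ' _ h1, h.1]
    · rw [(hA χ hχ).1 x hx, (hA χ' hχ').1 x hx]

/-- Conjugation by `g`. -/
def conjL (p : ℕ) (g : Γ) : Module.End (ZMod p) (Γ → ZMod p) :=
  LinearMap.funLeft (ZMod p) (ZMod p) (fun x => g * x * g⁻¹)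

theorem conjL_apply (g : Γ) (χ : Γ → ZMod p) (x : Γ) : conjL p g χ x = χ (g * x * g⁻¹) := rfl

theorem conjL_pow (g : Γ) (n : ℕ) (χ : Γ → ZMod p) (x : Γ) :
    ((conjL p g) ^ n) χ x = χ (g ^ n * x * (g ^ n)⁻¹) := by
  induction n generalizing x with
  | zero => simp
  | succ n ih =>
    rw [pow_succ', Module.End.mul_apply, conjL_apply, ih]
    congr 1
    group

theorem sub_one_pow [Fact p.Prime] (g : Γ) :
    (conjL p g - 1) ^ p = (conjL p g) ^ p - 1 := by
  have : Nonempty Γ := ⟨1⟩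
  have : Nontrivial (Γ → ZMod p) := Function.nontrivial
  have : CharP (Module.End (ZMod p) (Γ → ZMod p)) p :=
    charP_of_injective_algebraMap (algebraMap (ZMod p) (Module.End (ZMod p) (Γ → ZMod p))).injective p
  have h := sub_pow_char_of_commute (R := Module.End (ZMod p) (Γ → ZMod p)) (p := p)
    (Commute.one_right (conjL p g))
  rw [one_pow] at h
  exact h

/-- Extension of an invariant character. -/
theorem extend [Fact p.Prime] (U V : Subgroup Γ) (θ : Γ → ZMod p) (hθ : IsCh U θ)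
    (hV : ∀ x ∈ U, (θ x = 0 ↔ x ∈ V)) (hVU : V ≤ U) (g : Γ) (hg : g ∈ U) (hg1 : θ g = 1)
    (χ : Γ → ZMod p) (hχ : IsCh V χ) (hinv : ∀ x ∈ V, χ (g * x * g⁻¹) = χ x)
    (hgp : χ (g ^ p) = 0) : ∃ ψ : Γ → ZMod p, IsCh U ψ ∧ ∀ x ∈ V, ψ x = χ x := by
  classical
  have : NeZero p := ⟨(Fact.out : p.Prime).ne_zero⟩
  have hθpow : ∀ n : ℕ, θ (g ^ n) = n := by
    intro n
    induction n with
    | zero => simpa using hθ.one
    | succ n ih => rw [pow_succ, hθ.2 _ (U.pow_mem hg n) _ hg, ih, hg1]; push_cast; rfl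
  have hgpV : g ^ p ∈ V := by
    rw [← hV _ (U.pow_mem hg p), hθpow]; simp
  have hmem : ∀ x ∈ U, x * (g ^ (θ x).val)⁻¹ ∈ V := by
    intro x hx
    rw [← hV _ (U.mul_mem hx (U.inv_mem (U.pow_mem hg _))), hθ.2 _ hx _ (U.inv_mem (U.pow_mem hg _)),
      hθ.inv (U.pow_mem hg _), hθpow]
    simp
  have hconj : ∀ x ∈ V, g * x * g⁻¹ ∈ V := by
    intro x hx
    have hxU := hVU hx
    rw [← hV _ (U.mul_mem (U.mul_mem hg hxU) (U.inv_mem hg)),
      hθ.2 _ (U.mul_mem hg hxU) _ (U.inv_mem hg), hθ.2 _ hg _ hxU, hθ.inv hg, (hV x hxU).2 hx]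
    ring
  have hconjn : ∀ n : ℕ, ∀ x ∈ V, g ^ n * x * (g ^ n)⁻¹ ∈ V ∧ χ (g ^ n * x * (g ^ n)⁻¹) = χ x := by
    intro n
    induction n with
    | zero => intro x hx; simpa using hx
    | succ n ih =>
      intro x hx
      have e : g ^ (n+1) * x * (g ^ (n+1))⁻¹ = g ^ n * (g * x * g⁻¹) * (g ^ n)⁻¹ := by
        rw [pow_succ]; group
      rw [e]
      obtain ⟨h1, h2⟩ := ih _ (hconj x hx)
      exact ⟨h1, h2.trans (hinv x hx)⟩
  refine ⟨fun x => if x ∈ U then χ (x * (g ^ (θ x).val)⁻¹) else 0, ⟨?_, ?_⟩, ?_⟩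
  · intro x hx
    simp [hx]
  · intro x hx y hy
    have hxy := U.mul_mem hx hy
    simp only [hx, hy, hxy, if_true]
    have hval : ∃ e : ℕ, (θ x).val + (θ y).val = (θ (x*y)).val + p * e ∧ (e = 0 ∨ e = 1) := by
      rw [hθ.2 x hx y hy]
      rcases lt_or_ge ((θ x).val + (θ y).val) p with h | h
      · exact ⟨0, by rw [ZMod.val_add_of_lt h]; simp, Or.inl rfl⟩
      · refine ⟨1, ?_, Or.inr rfl⟩
        have := ZMod.val_add_val_of_le h
        omega
    obtain ⟨e, he, he01⟩ := hval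
    have key : x * y * (g ^ (θ (x*y)).val)⁻¹ = (x * (g ^ (θ x).val)⁻¹) *
        (g ^ (θ x).val * (y * (g ^ (θ y).val)⁻¹) * (g ^ (θ x).val)⁻¹) * g ^ (p * e) := by
      have h1 : g ^ (θ x).val * g ^ (θ y).val = g ^ (θ (x*y)).val * g ^ (p*e) := by
        rw [← pow_add, he, pow_add]
      have h2 : (g ^ (θ y).val)⁻¹ * (g ^ (θ x).val)⁻¹ * g ^ (p*e) = (g ^ (θ (x*y)).val)⁻¹ := by
        rw [← mul_inv_rev, h1, mul_inv_rev]
        have hc : Commute (g ^ (θ (x*y)).val)⁻¹ (g ^ (p*e)) :=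
          ((Commute.refl g).pow_pow _ _).inv_left
        rw [mul_assoc, hc.eq, ← mul_assoc, inv_mul_cancel, one_mul]
      rw [← h2]
      group
    have m1 := hmem x hx
    have m2 := hmem y hy
    have m3 := hconjn (θ x).val _ m2
    have hgpe : g ^ (p*e) ∈ V ∧ χ (g ^ (p*e)) = 0 := by
      rcases he01 with rfl | rfl
      · exact ⟨by rw [Nat.mul_zero, pow_zero]; exact V.one_mem, by rw [Nat.mul_zero, pow_zero]; exact hχ.one⟩
      · exact ⟨by rw [Nat.mul_one]; exact hgpV, by rw [Nat.mul_one]; exact hgp⟩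
    rw [key, hχ.2 _ (V.mul_mem m1 m3.1) _ hgpe.1, hχ.2 _ m1 _ m3.1, m3.2, hgpe.2, add_zero]
  · intro x hx
    have hxU := hVU hx
    simp [hxU, (hV x hxU).2 hx]

/-- Ascending step. `M` the group of characters of `V`, `C` the finite set of characters of `U`. -/
theorem asc [Fact p.Prime] (U V : Subgroup Γ) (θ : Γ → ZMod p) (hθ : IsCh U θ)
    (hV : ∀ x ∈ U, (θ x = 0 ↔ x ∈ V)) (hVU : V ≤ U)
    (M : AddSubgroup (Γ → ZMod p)) (hM : ∀ χ ∈ M, IsCh V χ)
    (hMconj : ∀ g ∈ U, ∀ χ ∈ M, conjL p g χ ∈ M)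
    (C : Set (Γ → ZMod p)) (hC : C.Finite)
    (hMC : ∀ χ ∈ M, ∀ ψ, IsCh U ψ → (∀ x ∈ V, ψ x = χ x) → ψ ∈ C) :
    (M : Set (Γ → ZMod p)).Finite := by
  classical
  have : NeZero p := ⟨(Fact.out : p.Prime).ne_zero⟩
  by_cases htriv : ∀ x ∈ U, θ x = 0
  · have hUV : U = V := le_antisymm (fun x hx => (hV x hx).1 (htriv x hx)) hVU
    refine hC.subset ?_
    intro χ hχ
    refine hMC χ hχ χ ?_ (fun x _ => rfl)
    rw [hUV]; exact hM χ hχ
  · push Not at htriv
    obtain ⟨g0, hg0, hg0θ⟩ := htriv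
    -- scale
    have hθpow0 : ∀ n : ℕ, θ (g0 ^ n) = n * θ g0 := by
      intro n
      induction n with
      | zero => simpa using hθ.one
      | succ n ih => rw [pow_succ, hθ.2 _ (U.pow_mem hg0 n) _ hg0, ih]; push_cast; ring
    set g := g0 ^ ((θ g0)⁻¹).val with hgdef
    have hg : g ∈ U := U.pow_mem hg0 _
    have hg1 : θ g = 1 := by
      rw [hgdef, hθpow0]
      simp [hg0θ]
    have hθpow : ∀ n : ℕ, θ (g ^ n) = n := by
      intro n
      induction n with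
      | zero => simpa using hθ.one
      | succ n ih => rw [pow_succ, hθ.2 _ (U.pow_mem hg n) _ hg, ih, hg1]; push_cast; rfl
    have hgpV : g ^ p ∈ V := by
      rw [← hV _ (U.pow_mem hg p), hθpow]; simp
    set T : Module.End (ZMod p) (Γ → ZMod p) := conjL p g - 1 with hT
    have hTM : ∀ χ ∈ M, T χ ∈ M := by
      intro χ hχ
      exact M.sub_mem (hMconj g hg χ hχ) hχ
    have hconjiff : ∀ n : ℕ, ∀ x, x ∉ V → g ^ n * x * (g ^ n)⁻¹ ∉ V := by
      intro n x hx hx'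
      apply hx
      have hgn := U.pow_mem hg n
      have hxU : x ∈ U := by
        have := U.mul_mem (U.mul_mem (U.inv_mem hgn) (hVU hx')) hgn
        simpa [mul_assoc] using this
      have := (hV _ (hVU hx')).2 hx'
      rw [hθ.2 _ (U.mul_mem hgn hxU) _ (U.inv_mem hgn), hθ.2 _ hgn _ hxU, hθ.inv hgn] at this
      rw [← hV x hxU]
      linear_combination this
    have hnil : ∀ χ ∈ M, (T ^ p) χ = 0 := by
      intro χ hχ
      rw [hT, sub_one_pow]
      funext x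
      simp only [LinearMap.sub_apply, Module.End.one_apply, Pi.sub_apply, Pi.zero_apply]
      rw [conjL_pow]
      by_cases hx : x ∈ V
      · rw [(hM χ hχ).2 _ (V.mul_mem hgpV hx) _ (V.inv_mem hgpV), (hM χ hχ).2 _ hgpV _ hx,
          (hM χ hχ).inv hgpV]
        ring
      · rw [(hM χ hχ).1 x hx, (hM χ hχ).1 _ (hconjiff p x hx), sub_zero]
    -- the kernel of T on M
    let M1 : AddSubgroup (Γ → ZMod p) := M ⊓ (T.toAddMonoidHom).ker
    have hM1 : (M1 : Set (Γ → ZMod p)).Finite := by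
      refine fin_of_ker M1 (Pi.evalAddMonoidHom (fun _ : Γ => ZMod p) (g ^ p)) (Set.toFinite _) ?_
      -- extends
      let r : (Γ → ZMod p) → (Γ → ZMod p) := fun ψ x => if x ∈ V then ψ x else 0
      refine (hC.image r).subset ?_
      rintro χ ⟨⟨hχM, hχT⟩, hχp⟩
      have hχT' : T χ = 0 := hχT
      have hinv : ∀ x ∈ V, χ (g * x * g⁻¹) = χ x := by
        intro x _
        have := congrFun hχT' x
        simp only [hT, LinearMap.sub_apply, Module.End.one_apply, Pi.sub_apply, Pi.zero_apply,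
          conjL_apply] at this
        exact sub_eq_zero.1 this
      obtain ⟨ψ, hψ, hψχ⟩ := extend U V θ hθ hV hVU g hg hg1 χ (hM χ hχM) hinv hχp
      refine ⟨ψ, hMC χ hχM ψ hψ hψχ, ?_⟩
      funext x
      by_cases hx : x ∈ V
      · simp [r, hx, hψχ x hx]
      · simp [r, hx, (hM χ hχM).1 x hx]
    have hMk : ∀ k : ℕ, ((M ⊓ ((T ^ k).toAddMonoidHom).ker : AddSubgroup (Γ → ZMod p)) :
        Set (Γ → ZMod p)).Finite := by
      intro k
      induction k with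
      | zero =>
        refine (Set.finite_singleton (0 : Γ → ZMod p)).subset ?_
        rintro χ ⟨_, h⟩
        have h' : (T ^ 0) χ = 0 := h
        simpa using h'
      | succ k ih =>
        refine fin_of_ker _ T.toAddMonoidHom (ih.subset ?_) (hM1.subset ?_)
        · rintro _ ⟨χ, ⟨hχ, h⟩, rfl⟩
          have h' : (T ^ (k+1)) χ = 0 := h
          refine ⟨hTM χ hχ, ?_⟩
          change (T ^ k) (T χ) = 0
          rw [← Module.End.mul_apply, ← pow_succ]
          exact h'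
        · rintro χ ⟨⟨hχ, _⟩, h⟩
          exact ⟨hχ, h⟩
    refine (hMk p).subset ?_
    intro χ hχ
    exact ⟨hχ, hnil χ hχ⟩

end Pool.Agent.TH315.Mu
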