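import Mathlib

namespace Pool.Agent.TH315.Mu

open IntermediateField

variable {Ω : Type} [Field Ω] [CharZero Ω]

/-- The inertia group, in the Galois group of `Ω / ℚ`, of an ideal `P` of the ring
`integralClosure ℤ Ω` of all algebraic integers of `Ω`. -/
def inertia (P : Ideal (integralClosure ℤ Ω)) : Set (Ω ≃ₐ[ℚ] Ω) :=
  {σ | ∀ x y : integralClosure ℤ Ω, (y : Ω) = σ (x : Ω) → y - x ∈ P}

/-- `P` is a maximal ideal of the ring of algebraic integers of `Ω` which lies above none of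
the prime numbers in `S`. -/
def Outside (S : Finset ℕ) (P : Ideal (integralClosure ℤ Ω)) : Prop :=
  P.IsMaximal ∧ ∀ ℓ ∈ S, ((ℓ : ℕ) : integralClosure ℤ Ω) ∉ P

/-- The homomorphisms `H → ℤ/p` that are continuous (trivial on the elements of `H` fixing some
number field) and trivial on the inertia at every prime outside `S`. -/
def chars (p : ℕ) (S : Finset ℕ) (H : Subgroup (Ω ≃ₐ[ℚ] Ω)) :
    Set (H →* Multiplicative (ZMod p)) :=
  {χ | (∃ L : IntermediateField ℚ Ω, FiniteDimensional ℚ L ∧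
          ∀ σ : H, (σ : Ω ≃ₐ[ℚ] Ω) ∈ L.fixingSubgroup → χ σ = 1) ∧
        ∀ P : Ideal (integralClosure ℤ Ω), Outside S P →
          ∀ σ : H, (σ : Ω ≃ₐ[ℚ] Ω) ∈ inertia P → χ σ = 1}

/-- The cyclotomic `ℤ_p`-extension of `ℚ` (`p` odd): the field fixed by all `σ` whose power
`σ ^ (p - 1)` fixes every root of unity of `p`-power order. -/
def Qcyc (Ω : Type) [Field Ω] [CharZero Ω] (p : ℕ) : IntermediateField ℚ Ω :=
  fixedField (Subgroup.closure
    {σ : Ω ≃ₐ[ℚ] Ω | ∀ (n : ℕ) (ζ : Ω), ζ ^ p ^ n = 1 → (σ ^ (p - 1)) ζ = ζ})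

/-- `μ_p(E) = 0`: for every finite set `S` of prime numbers containing `p`, the field
`E^cyc = E·Qcyc` has only finitely many `ℤ/p`-characters unramified outside `S`. -/
def MuVanishes (p : ℕ) (E : IntermediateField ℚ Ω) : Prop :=
  ∀ S : Finset ℕ, (∀ ℓ ∈ S, ℓ.Prime) → p ∈ S → (chars p S (E ⊔ Qcyc Ω p).fixingSubgroup).Finite

end Pool.Agent.TH315.Mu
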