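import Mathlib
import Pool.Agent.TH315.Mu.Defs
import Pool.Agent.TH315.Mu.Abs

namespace Pool.Agent.TH315.Mu

open IntermediateField

variable {Ω : Type} [Field Ω] [CharZero Ω] {p : ℕ}

/-- The characters as functions on the whole Galois group. -/
def fch (p : ℕ) (S : Finset ℕ) (H : Subgroup (Ω ≃ₐ[ℚ] Ω)) : AddSubgroup ((Ω ≃ₐ[ℚ] Ω) → ZMod p) where
  carrier := {χ | IsCh H χ ∧ (∃ L : IntermediateField ℚ Ω, FiniteDimensional ℚ L ∧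
      ∀ σ ∈ H, σ ∈ L.fixingSubgroup → χ σ = 0) ∧
      ∀ P : Ideal (integralClosure ℤ Ω), Outside S P → ∀ σ ∈ H, σ ∈ inertia P → χ σ = 0}
  zero_mem' := ⟨⟨fun _ _ => rfl, fun _ _ _ _ => by simp⟩, ⟨⊥, inferInstance, fun _ _ _ => rfl⟩,
    fun _ _ _ _ _ => rfl⟩
  add_mem' := by
    rintro a b ⟨⟨a1, a2⟩, ⟨La, hLa, a3⟩, a4⟩ ⟨⟨b1, b2⟩, ⟨Lb, hLb, b3⟩, b4⟩
    refine ⟨⟨fun x hx => ?_, fun x hx y hy => ?_⟩, ⟨La ⊔ Lb, inferInstance, fun σ hσ hσ' => ?_⟩,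
      fun P hP σ hσ hσ' => ?_⟩
    · simp [a1 x hx, b1 x hx]
    · simp only [Pi.add_apply, a2 x hx y hy, b2 x hx y hy]; ring
    · rw [fixingSubgroup_sup] at hσ'
      simp [a3 σ hσ hσ'.1, b3 σ hσ hσ'.2]
    · simp [a4 P hP σ hσ hσ', b4 P hP σ hσ hσ']
  neg_mem' := by
    rintro a ⟨⟨a1, a2⟩, ⟨La, hLa, a3⟩, a4⟩
    refine ⟨⟨fun x hx => ?_, fun x hx y hy => ?_⟩, ⟨La, hLa, fun σ hσ hσ' => ?_⟩,
      fun P hP σ hσ hσ' => ?_⟩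
    · simp [a1 x hx]
    · simp only [Pi.neg_apply, a2 x hx y hy]; ring
    · simp [a3 σ hσ hσ']
    · simp [a4 P hP σ hσ hσ']

theorem mem_fch {S : Finset ℕ} {H : Subgroup (Ω ≃ₐ[ℚ] Ω)} {χ : (Ω ≃ₐ[ℚ] Ω) → ZMod p} :
    χ ∈ fch p S H ↔ (IsCh H χ ∧ (∃ L : IntermediateField ℚ Ω, FiniteDimensional ℚ L ∧
      ∀ σ ∈ H, σ ∈ L.fixingSubgroup → χ σ = 0) ∧
      ∀ P : Ideal (integralClosure ℤ Ω), Outside S P → ∀ σ ∈ H, σ ∈ inertia P → χ σ = 0) :=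
  Iff.rfl

theorem fch_fin_of_chars {S : Finset ℕ} {H : Subgroup (Ω ≃ₐ[ℚ] Ω)} (h : (chars p S H).Finite) :
    (fch p S H : Set ((Ω ≃ₐ[ℚ] Ω) → ZMod p)).Finite := by
  classical
  let F : (H →* Multiplicative (ZMod p)) → ((Ω ≃ₐ[ℚ] Ω) → ZMod p) :=
    fun χ x => if hx : x ∈ H then Multiplicative.toAdd (χ ⟨x, hx⟩) else 0
  refine (h.image F).subset ?_
  rintro χ ⟨⟨h1, h2⟩, ⟨L, hL, h3⟩, h4⟩
  let ψ : H →* Multiplicative (ZMod p) :=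
    { toFun := fun x => Multiplicative.ofAdd (χ x)
      map_one' := by
        have := IsCh.one (H := H) (χ := χ) ⟨h1, h2⟩
        rw [OneMemClass.coe_one, this]; rfl
      map_mul' := fun x y => by
        rw [Subgroup.coe_mul, h2 x x.2 y y.2]; rfl }
  refine ⟨ψ, ⟨⟨L, hL, fun σ hσ => ?_⟩, fun P hP σ hσ => ?_⟩, ?_⟩
  · change Multiplicative.ofAdd (χ σ) = 1
    rw [h3 σ σ.2 hσ]; rfl
  · change Multiplicative.ofAdd (χ σ) = 1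
    rw [h4 P hP σ σ.2 hσ]; rfl
  · funext x
    by_cases hx : x ∈ H
    · simp only [F, hx, dif_pos]; rfl
    · simp only [F, hx, dif_neg, not_false_eq_true, h1 x hx]

theorem chars_fin_of_fch {S : Finset ℕ} {H : Subgroup (Ω ≃ₐ[ℚ] Ω)}
    (h : (fch p S H : Set ((Ω ≃ₐ[ℚ] Ω) → ZMod p)).Finite) : (chars p S H).Finite := by
  classical
  let F : (H →* Multiplicative (ZMod p)) → ((Ω ≃ₐ[ℚ] Ω) → ZMod p) :=
    fun χ x => if hx : x ∈ H then Multiplicative.toAdd (χ ⟨x, hx⟩) else 0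
  have hF : ∀ χ x (hx : x ∈ H), F χ x = Multiplicative.toAdd (χ ⟨x, hx⟩) := by
    intro χ x hx
    simp only [F, hx, dif_pos]
  refine Set.Finite.of_injOn (f := F) ?_ ?_ h
  · rintro χ ⟨⟨L, hL, h3⟩, h4⟩
    refine ⟨⟨fun x hx => ?_, fun x hx y hy => ?_⟩, ⟨L, hL, fun σ hσ hσ' => ?_⟩,
      fun P hP σ hσ hσ' => ?_⟩
    · simp only [F, hx, dif_neg, not_false_eq_true]
    · rw [hF _ _ hx, hF _ _ hy, hF _ _ (H.mul_mem hx hy), ← toAdd_mul, ← map_mul]; rfl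
    · rw [hF _ _ hσ, h3 ⟨σ, hσ⟩ hσ']; rfl
    · rw [hF _ _ hσ, h4 P hP ⟨σ, hσ⟩ hσ']; rfl
  · intro χ _ χ' _ hχ
    ext x
    have := congrFun hχ x
    rw [hF _ _ x.2, hF _ _ x.2] at this
    exact this

/-- transport of an ideal by an automorphism -/
noncomputable def moved (g : Ω ≃ₐ[ℚ] Ω) (P : Ideal (integralClosure ℤ Ω)) :
    Ideal (integralClosure ℤ Ω) :=
  P.comap ((g⁻¹).restrictScalars ℤ).mapIntegralClosure

theorem mem_moved (g : Ω ≃ₐ[ℚ] Ω) (P : Ideal (integralClosure ℤ Ω)) (x y : integralClosure ℤ Ω)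
    (h : (y : Ω) = g⁻¹ (x : Ω)) : x ∈ moved g P ↔ y ∈ P := by
  have : ((g⁻¹).restrictScalars ℤ).mapIntegralClosure x = y := by
    apply Subtype.ext
    rw [h]; rfl
  unfold moved
  rw [Ideal.mem_comap, this]

theorem moved_outside (g : Ω ≃ₐ[ℚ] Ω) (P : Ideal (integralClosure ℤ Ω)) (S : Finset ℕ)
    (h : Outside S P) : Outside S (moved g P) := by
  refine ⟨?_, fun ℓ hℓ h' => h.2 ℓ hℓ ?_⟩
  · have := h.1
    exact Ideal.comap_isMaximal_of_equiv ((g⁻¹).restrictScalars ℤ).mapIntegralClosure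
  · rw [mem_moved g P _ (ℓ : integralClosure ℤ Ω) (by simp)] at h'
    exact h'

theorem moved_inertia (g σ : Ω ≃ₐ[ℚ] Ω) (P : Ideal (integralClosure ℤ Ω)) (h : σ ∈ inertia P) :
    g * σ * g⁻¹ ∈ inertia (moved g P) := by
  intro x y hxy
  have hi : ∀ z : integralClosure ℤ Ω, IsIntegral ℤ (g⁻¹ (z : Ω)) :=
    fun z => z.2.map ((g⁻¹).toAlgHom.restrictScalars ℤ)
  let x' : integralClosure ℤ Ω := ⟨g⁻¹ (x : Ω), hi x⟩
  let y' : integralClosure ℤ Ω := ⟨g⁻¹ (y : Ω), hi y⟩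
  have h1 : y' - x' ∈ P := by
    apply h x' y'
    change g⁻¹ (y : Ω) = σ (g⁻¹ (x : Ω))
    rw [hxy]
    change (g⁻¹ * (g * σ * g⁻¹)) (x : Ω) = (σ * g⁻¹) (x : Ω)
    congr 1
    group
  rw [mem_moved g P (y - x) (y' - x')]
  · exact h1
  · change g⁻¹ (y : Ω) - g⁻¹ (x : Ω) = g⁻¹ ((y : Ω) - (x : Ω))
    rw [map_sub]

theorem fch_conj (S : Finset ℕ) (V : Subgroup (Ω ≃ₐ[ℚ] Ω)) (g : Ω ≃ₐ[ℚ] Ω)
    (hg : ∀ x, g * x * g⁻¹ ∈ V ↔ x ∈ V) (χ : (Ω ≃ₐ[ℚ] Ω) → ZMod p) (hχ : χ ∈ fch p S V) :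
    conjL p g χ ∈ fch p S V := by
  obtain ⟨⟨h1, h2⟩, ⟨L, hL, h3⟩, h4⟩ := hχ
  refine ⟨⟨fun x hx => ?_, fun x hx y hy => ?_⟩, ⟨L.map (g⁻¹ : Ω ≃ₐ[ℚ] Ω).toAlgHom, ?_, fun σ hσ hσ' => ?_⟩,
      fun P hP σ hσ hσ' => ?_⟩
  · rw [conjL_apply]
    exact h1 _ (fun h => hx ((hg x).1 h))
  · rw [conjL_apply, conjL_apply, conjL_apply, ← h2 _ ((hg x).2 hx) _ ((hg y).2 hy)]
    congr 1
    group
  · infer_instance
  · rw [conjL_apply]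
    refine h3 _ ((hg σ).2 hσ) ?_
    rw [IntermediateField.mem_fixingSubgroup_iff] at hσ' ⊢
    intro x hx
    have := hσ' (g⁻¹ x) ⟨x, hx, rfl⟩
    change g (σ (g⁻¹ x)) = x
    rw [this]
    change (g * g⁻¹) x = x
    rw [mul_inv_cancel]; rfl
  · rw [conjL_apply]
    exact h4 _ (moved_outside g P S hP) _ ((hg σ).2 hσ) (moved_inertia g σ P hσ')

end Pool.Agent.TH315.Mu
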