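import Mathlib
import Pool.Agent.TH315.Mu.Defs

namespace Pool.Agent.TH315.Mu

open IntermediateField Polynomial

variable {Ω : Type} [Field Ω] [CharZero Ω]

theorem exists_prime_mem {R : Type*} [CommRing R] (P : Ideal R) [hP : P.IsPrime] (n : ℕ) :
    n ≠ 0 → (n : R) ∈ P → ∃ ℓ : ℕ, ℓ.Prime ∧ ℓ ∣ n ∧ (ℓ : R) ∈ P := by
  induction n using induction_on_primes with
  | zero => intro h; exact absurd rfl h
  | one =>
    intro _ h
    rw [Nat.cast_one] at h
    exact absurd ((Ideal.eq_top_iff_one P).2 h) hP.ne_top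
  | prime_mul q a hq ih =>
    intro h0 h
    rw [Nat.cast_mul] at h
    rcases hP.mem_or_mem h with h | h
    · exact ⟨q, hq, dvd_mul_right q a, h⟩
    · obtain ⟨ℓ, h1, h2, h3⟩ := ih (fun e => h0 (by rw [e, mul_zero])) h
      exact ⟨ℓ, h1, dvd_mul_of_dvd_right h2 q, h3⟩

theorem ram1 (a : Ω) (ha : IsIntegral ℤ a) : ∃ S : Finset ℕ, (∀ ℓ ∈ S, ℓ.Prime) ∧
    ∀ P : Ideal (integralClosure ℤ Ω), Outside S P → ∀ σ ∈ inertia P, σ a = a := by
  classical
  have haQ : IsIntegral ℚ a := ha.tower_top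
  let R : Finset Ω := ((minpoly ℚ a).rootSet Ω).toFinset
  refine ⟨R.biUnion (fun β => if β = a then ∅ else ((minpoly ℤ (β - a)).coeff 0).natAbs.primeFactors),
    ?_, ?_⟩
  · intro ℓ hℓ
    rw [Finset.mem_biUnion] at hℓ
    obtain ⟨β, _, h⟩ := hℓ
    split_ifs at h
    · simp at h
    · exact Nat.prime_of_mem_primeFactors h
  · intro P hP σ hσ
    by_contra hne
    have hmax : P.IsMaximal := hP.1
    have hpr : P.IsPrime := hmax.isPrime
    have hσa : IsIntegral ℤ (σ a) := ha.map (σ.toAlgHom.restrictScalars ℤ)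
    have hR : σ a ∈ R := by
      simp only [R, Set.mem_toFinset]
      rw [Polynomial.mem_rootSet]
      refine ⟨minpoly.ne_zero haQ, ?_⟩
      have := Polynomial.aeval_algHom_apply σ.toAlgHom a (minpoly ℚ a)
      rw [minpoly.aeval, map_zero] at this
      exact this
    have hd : (⟨σ a, hσa⟩ : (integralClosure ℤ Ω)) - ⟨a, ha⟩ ∈ P := hσ ⟨a, ha⟩ ⟨σ a, hσa⟩ rfl
    set d : (integralClosure ℤ Ω) := (⟨σ a, hσa⟩ : (integralClosure ℤ Ω)) - ⟨a, ha⟩ with hdd
    have hdQ : (d : Ω) = σ a - a := rfl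
    have hint : IsIntegral ℤ (σ a - a) := hσa.sub ha
    have hne0 : σ a - a ≠ 0 := sub_ne_zero.2 hne
    have hc0 : (minpoly ℤ (σ a - a)).coeff 0 ≠ 0 := by
      have h1 := minpoly.coeff_zero_ne_zero (hint.tower_top (A := ℚ)) hne0
      rw [minpoly.isIntegrallyClosed_eq_field_fractions' ℚ hint, Polynomial.coeff_map] at h1
      intro h0
      rw [h0] at h1
      simp at h1
    set m := minpoly ℤ (σ a - a) with hm
    have haev : aeval d m = 0 := by
      apply Subtype.coe_injective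
      change ((aeval d m : integralClosure ℤ Ω) : Ω) = ((0 : integralClosure ℤ Ω) : Ω)
      rw [Polynomial.aeval_subalgebra_coe]
      rw [hdQ, hm, minpoly.aeval]
      rfl
    have hmem : ((m.coeff 0 : ℤ) : (integralClosure ℤ Ω)) ∈ P := by
      have h1 := congrArg (aeval d) (Polynomial.divX_mul_X_add m)
      rw [haev, map_add, map_mul, aeval_X, aeval_C] at h1
      have h2 : ((m.coeff 0 : ℤ) : (integralClosure ℤ Ω)) = - (aeval d m.divX * d) := by
        have : (algebraMap ℤ (integralClosure ℤ Ω)) (m.coeff 0) = ((m.coeff 0 : ℤ) : (integralClosure ℤ Ω)) := by simp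
        rw [this] at h1
        linear_combination h1
      rw [h2]
      exact P.neg_mem (P.mul_mem_left _ hd)
    have hmemN : (((m.coeff 0).natAbs : ℕ) : (integralClosure ℤ Ω)) ∈ P := by
      rcases Int.natAbs_eq (m.coeff 0) with h | h
      · rw [h] at hmem
        simpa using hmem
      · rw [h] at hmem
        have := P.neg_mem hmem
        simpa using this
    obtain ⟨ℓ, h1, h2, h3⟩ := exists_prime_mem P _ (Int.natAbs_ne_zero.2 hc0) hmemN
    refine hP.2 ℓ ?_ h3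
    rw [Finset.mem_biUnion]
    refine ⟨σ a, hR, ?_⟩
    rw [if_neg hne]
    exact Nat.mem_primeFactors.2 ⟨h1, h2, Int.natAbs_ne_zero.2 hc0⟩

theorem ram [Algebra.IsAlgebraic ℚ Ω] (L : IntermediateField ℚ Ω) [FiniteDimensional ℚ L] : ∃ S : Finset ℕ,
    (∀ ℓ ∈ S, ℓ.Prime) ∧ ∀ P : Ideal (integralClosure ℤ Ω), Outside S P → ∀ σ ∈ inertia P, σ ∈ L.fixingSubgroup := by
  classical
  let b := Module.finBasis ℚ L
  have h1 : ∀ i, ∃ S : Finset ℕ, (∀ ℓ ∈ S, ℓ.Prime) ∧
      ∀ P : Ideal (integralClosure ℤ Ω), Outside S P → ∀ σ ∈ inertia P, σ ((b i : L) : Ω) = (b i : L) := by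
    intro i
    have halg : IsAlgebraic ℤ ((b i : L) : Ω) :=
      (IsFractionRing.isAlgebraic_iff ℤ ℚ Ω).2 (Algebra.IsAlgebraic.isAlgebraic _)
    obtain ⟨y, hy, hint⟩ := halg.exists_integral_multiple
    obtain ⟨S, hS1, hS2⟩ := ram1 _ hint
    refine ⟨S, hS1, fun P hP σ hσ => ?_⟩
    have := hS2 P hP σ hσ
    rw [zsmul_eq_mul, map_mul, map_intCast] at this
    exact mul_left_cancel₀ (Int.cast_ne_zero.2 hy) this
  choose S hS1 hS2 using h1
  refine ⟨Finset.univ.biUnion S, ?_, ?_⟩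
  · intro ℓ hℓ
    rw [Finset.mem_biUnion] at hℓ
    obtain ⟨i, _, h⟩ := hℓ
    exact hS1 i ℓ h
  · intro P hP σ hσ
    rw [IntermediateField.mem_fixingSubgroup_iff]
    intro x hx
    have hb : ∀ i, σ ((b i : L) : Ω) = (b i : L) := by
      intro i
      exact hS2 i P ⟨hP.1, fun ℓ hℓ => hP.2 ℓ (Finset.mem_biUnion.2 ⟨i, Finset.mem_univ _, hℓ⟩)⟩ σ hσ
    have hlin : σ.toLinearMap.comp L.val.toLinearMap = L.val.toLinearMap := b.ext (fun i => hb i)
    exact congrArg (fun f : L →ₗ[ℚ] Ω => f ⟨x, hx⟩) hlin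

end Pool.Agent.TH315.Mu
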