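import Mathlib
import Pool.Agent.TH315.Mu.Ch
import Pool.Agent.TH315.Mu.Ram

namespace Pool.Agent.TH315.Mu

open IntermediateField

variable {Ω : Type} [Field Ω] [CharZero Ω] {p : ℕ}

/-- Finiteness of the character groups of `H ⊓ T`. -/
def Van (p : ℕ) (T H : Subgroup (Ω ≃ₐ[ℚ] Ω)) : Prop :=
  ∀ S : Finset ℕ, (∀ ℓ ∈ S, ℓ.Prime) → p ∈ S →
    (fch p S (H ⊓ T) : Set ((Ω ≃ₐ[ℚ] Ω) → ZMod p)).Finite

theorem stepup [Algebra.IsAlgebraic ℚ Ω] [Fact p.Prime] (T A B : Subgroup (Ω ≃ₐ[ℚ] Ω)) (hAB : A ≤ B)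
    (θ : (Ω ≃ₐ[ℚ] Ω) → ZMod p) (hθ : IsCh B θ) (hA : ∀ x ∈ B, (θ x = 0 ↔ x ∈ A))
    (L0 : IntermediateField ℚ Ω) (hL0f : FiniteDimensional ℚ L0) (hL0 : L0.fixingSubgroup ≤ A)
    (hB : Van p T B) : Van p T A := by
  classical
  intro S hS hpS
  obtain ⟨S0, hS0, hram⟩ := ram L0
  have hS' : ∀ ℓ ∈ S ∪ S0, ℓ.Prime := by
    intro ℓ hℓ
    rcases Finset.mem_union.1 hℓ with h | h
    · exact hS ℓ h
    · exact hS0 ℓ h
  have hVU : A ⊓ T ≤ B ⊓ T := inf_le_inf_right T hAB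
  have hc : ∀ g ∈ B ⊓ T, ∀ x ∈ A ⊓ T, g * x * g⁻¹ ∈ A ⊓ T := by
    intro g hg x hx
    refine ⟨?_, T.mul_mem (T.mul_mem hg.2 hx.2) (T.inv_mem hg.2)⟩
    have hxB : x ∈ B := hAB hx.1
    change g * x * g⁻¹ ∈ A
    rw [← hA _ (B.mul_mem (B.mul_mem hg.1 hxB) (B.inv_mem hg.1)),
      hθ.2 _ (B.mul_mem hg.1 hxB) _ (B.inv_mem hg.1), hθ.2 _ hg.1 _ hxB, hθ.inv hg.1,
      (hA x hxB).2 hx.1]
    ring
  refine asc (B ⊓ T) (A ⊓ T) (fun x => if x ∈ B ⊓ T then θ x else 0) ?_ ?_ hVU (fch p S (A ⊓ T))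
    (fun χ hχ => hχ.1) ?_ (fch p (S ∪ S0) (B ⊓ T)) (hB _ hS' (Finset.mem_union_left _ hpS)) ?_
  · refine ⟨fun x hx => by simp only [hx, if_false], fun x hx y hy => ?_⟩
    have hxy := (B ⊓ T).mul_mem hx hy
    simp only [hx, hy, hxy, if_true]
    exact hθ.2 x hx.1 y hy.1
  · intro x hx
    simp only [hx, if_true]
    rw [hA x hx.1]
    exact ⟨fun h => ⟨h, hx.2⟩, fun h => h.1⟩
  · intro g hg χ hχ
    refine fch_conj S _ g (fun x => ⟨fun h => ?_, fun h => hc g hg x h⟩) χ hχ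
    have := hc g⁻¹ ((B ⊓ T).inv_mem hg) _ h
    have e : g⁻¹ * (g * x * g⁻¹) * g⁻¹⁻¹ = x := by group
    rw [e] at this
    exact this
  · rintro χ ⟨hχ1, ⟨L, hL, h3⟩, h4⟩ ψ hψ hψχ
    refine ⟨hψ, ⟨L ⊔ L0, inferInstance, fun σ hσ hσ' => ?_⟩, fun P hP σ hσ hσ' => ?_⟩
    · rw [fixingSubgroup_sup] at hσ'
      have hσV : σ ∈ A ⊓ T := ⟨hL0 hσ'.2, hσ.2⟩
      rw [hψχ σ hσV, h3 σ hσV hσ'.1]
    · have hσV : σ ∈ A ⊓ T :=
        ⟨hL0 (hram P ⟨hP.1, fun ℓ hℓ => hP.2 ℓ (Finset.mem_union_right _ hℓ)⟩ σ hσ'), hσ.2⟩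
      rw [hψχ σ hσV]
      exact h4 P ⟨hP.1, fun ℓ hℓ => hP.2 ℓ (Finset.mem_union_left _ hℓ)⟩ σ hσV hσ'

theorem chain [Algebra.IsAlgebraic ℚ Ω] [Fact p.Prime] (T A : Subgroup (Ω ≃ₐ[ℚ] Ω))
    (L0 : IntermediateField ℚ Ω) (hL0f : FiniteDimensional ℚ L0) (hL0 : L0.fixingSubgroup ≤ A)
    (k : ℕ) : ∀ B : Subgroup (Ω ≃ₐ[ℚ] Ω), A ≤ B → (∀ b ∈ B, ∀ a ∈ A, b * a * b⁻¹ ∈ A) →
      A.relIndex B = p ^ k → Van p T B → Van p T A := by
  classical
  have hp : p.Prime := Fact.out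
  induction k with
  | zero =>
    intro B hAB _ hidx hB
    rw [pow_zero, Subgroup.relIndex_eq_one] at hidx
    rw [le_antisymm hAB hidx]
    exact hB
  | succ k ih =>
    intro B hAB hn hidx hB
    have hnorm : (A.subgroupOf B).Normal := by
      refine ⟨fun a ha b => ?_⟩
      rw [Subgroup.mem_subgroupOf] at ha ⊢
      exact hn b b.2 a ha
    have hcard : Nat.card (B ⧸ A.subgroupOf B) = p ^ (k + 1) := hidx
    have hfin : Finite (B ⧸ A.subgroupOf B) := by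
      apply Nat.finite_of_card_ne_zero
      rw [hcard]; exact pow_ne_zero _ hp.ne_zero
    obtain ⟨K, hK⟩ := Sylow.exists_subgroup_card_pow_prime (G := B ⧸ A.subgroupOf B) p (n := k)
      (by rw [hcard]; exact pow_dvd_pow p (Nat.le_succ k))
    have hKidx : K.index = p := by
      have := K.card_mul_index
      rw [hK, hcard, pow_succ] at this
      exact Nat.eq_of_mul_eq_mul_left (pow_pos hp.pos k) this
    have hKn : K.Normal := by
      apply Subgroup.normal_of_index_eq_minFac_card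
      rw [hKidx, hcard, hp.pow_minFac (Nat.succ_ne_zero k)]
    have hcardK : Nat.card ((B ⧸ A.subgroupOf B) ⧸ K) = p := hKidx
    have hcardZ : Nat.card (Multiplicative (ZMod p)) = p := by
      rw [Nat.card_congr Multiplicative.toAdd]; exact Nat.card_zmod p
    let e : ((B ⧸ A.subgroupOf B) ⧸ K) ≃* Multiplicative (ZMod p) :=
      mulEquivOfPrimeCardEq hcardK hcardZ
    let f : B →* Multiplicative (ZMod p) :=
      (e.toMonoidHom.comp (QuotientGroup.mk' K)).comp (QuotientGroup.mk' (A.subgroupOf B))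
    have hfsurj : Function.Surjective f := by
      intro z
      obtain ⟨y, rfl⟩ := e.surjective z
      obtain ⟨w, rfl⟩ := QuotientGroup.mk'_surjective K y
      obtain ⟨v, rfl⟩ := QuotientGroup.mk'_surjective (A.subgroupOf B) w
      exact ⟨v, rfl⟩
    have hfA : ∀ a : B, (a : Ω ≃ₐ[ℚ] Ω) ∈ A → f a = 1 := by
      intro a ha
      have : (QuotientGroup.mk' (A.subgroupOf B)) a = 1 := by
        rw [← MonoidHom.mem_ker, QuotientGroup.ker_mk']
        exact ha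
      simp only [f, MonoidHom.comp_apply, this, map_one]
    let M : Subgroup (Ω ≃ₐ[ℚ] Ω) := f.ker.map B.subtype
    have hMmem : ∀ x (hx : x ∈ B), x ∈ M ↔ f ⟨x, hx⟩ = 1 := by
      intro x hx
      constructor
      · rintro ⟨y, hy, rfl⟩
        exact hy
      · intro h
        exact ⟨⟨x, hx⟩, h, rfl⟩
    have hMB : M ≤ B := by
      rintro _ ⟨y, _, rfl⟩
      exact y.2
    have hAM : A ≤ M := fun a ha => (hMmem a (hAB ha)).2 (hfA ⟨a, hAB ha⟩ ha)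
    have hMidx : M.relIndex B = p := by
      have h1 : M.subgroupOf B = f.ker := by
        ext x
        rw [Subgroup.mem_subgroupOf, hMmem x x.2]
        rfl
      change (M.subgroupOf B).index = p
      rw [h1, Subgroup.index_ker, MonoidHom.range_eq_top.2 hfsurj, Subgroup.card_top, hcardZ]
    have hAMidx : A.relIndex M = p ^ k := by
      have := Subgroup.relIndex_mul_relIndex A M B hAM hMB
      rw [hMidx, hidx, pow_succ] at this
      exact Nat.eq_of_mul_eq_mul_right hp.pos this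
    refine ih M hAM (fun b hb a ha => hn b (hMB hb) a ha) hAMidx ?_
    refine stepup T M B hMB (fun x => if hx : x ∈ B then Multiplicative.toAdd (f ⟨x, hx⟩) else 0)
      ⟨fun x hx => by simp only [hx, dif_neg, not_false_eq_true], fun x hx y hy => ?_⟩ ?_ L0 hL0f (hL0.trans hAM) hB
    · have hxy := B.mul_mem hx hy
      simp only [hx, hy, hxy, dif_pos]
      rw [← toAdd_mul, ← map_mul]
      rfl
    · intro x hx
      simp only [hx, dif_pos]
      rw [hMmem x hx]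
      exact Iff.rfl

theorem godown [Fact p.Prime] (T A B : Subgroup (Ω ≃ₐ[ℚ] Ω)) (hAB : A ≤ B) [hfin : A.FiniteIndex]
    (hA : Van p T A) : Van p T B := by
  classical
  have hp : p.Prime := Fact.out
  have : NeZero p := ⟨hp.ne_zero⟩
  intro S hS hpS
  have heq : (A ⊓ T).subgroupOf (B ⊓ T) = A.subgroupOf (B ⊓ T) := by
    ext x
    rw [Subgroup.mem_subgroupOf, Subgroup.mem_subgroupOf]
    exact ⟨fun h => h.1, fun h => ⟨h, x.2.2⟩⟩
  have hf : Finite (↥(B ⊓ T) ⧸ (A ⊓ T).subgroupOf (B ⊓ T)) := by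
    rw [heq]
    exact Subgroup.finite_quotient_of_finiteIndex
  refine desc (B ⊓ T) (A ⊓ T) hf _ _ (fun χ hχ => hχ.1) (hA S hS hpS) ?_
    (inf_le_inf_right T hAB)
  rintro χ ⟨⟨h1, h2⟩, ⟨L, hL, h3⟩, h4⟩
  have hVU : A ⊓ T ≤ B ⊓ T := inf_le_inf_right T hAB
  refine ⟨fun x => if x ∈ A ⊓ T then χ x else 0, ⟨⟨fun x hx => by simp only [hx, if_false], fun x hx y hy => ?_⟩,
    ⟨L, hL, fun σ hσ hσ' => ?_⟩, fun P hP σ hσ hσ' => ?_⟩, fun v hv => by simp only [hv, if_true]⟩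
  · have hxy := (A ⊓ T).mul_mem hx hy
    simp only [hx, hy, hxy, if_true]
    exact h2 x (hVU hx) y (hVU hy)
  · simp only [hσ, if_true]
    exact h3 σ (hVU hσ) hσ'
  · simp only [hσ, if_true]
    exact h4 P hP σ (hVU hσ) hσ'

end Pool.Agent.TH315.Mu
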